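import Pool.Agent.W670.ML.Defs

set_option autoImplicit false

namespace Pool.Agent.W711.ML

open Pool.Agent.W670.ML NumberField

theorem aux (Ω : Type) [Field Ω] [CharZero Ω] (inst : Algebra ℚ Ω)
    (h : inst = DivisionRing.toRatAlgebra) (Y : ℝ) :
    {M : IntermediateField ℚ Ω | ∃ _ : NumberField M, ((discr M).natAbs : ℝ) ≤ Y}.Finite := by
  subst h
  have h1 := NumberField.finite_of_discr_bdd Ω (⌈Y⌉.toNat)
  refine (h1.image Subtype.val).subset ?_
  rintro M ⟨hM, hY⟩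
  refine ⟨⟨M, ?_⟩, ?_, rfl⟩
  · have h2 : FiniteDimensional ℚ M := hM.to_finiteDimensional
    exact h2
  · change |discr M| ≤ _
    have h3 : ((discr M).natAbs : ℝ) ≤ ((⌈Y⌉.toNat : ℕ) : ℝ) := by
      refine hY.trans ?_
      have h4 : Y ≤ (⌈Y⌉ : ℝ) := Int.le_ceil Y
      have h5 : (⌈Y⌉ : ℝ) ≤ ((⌈Y⌉.toNat : ℤ) : ℝ) := by
        exact_mod_cast Int.self_le_toNat _
      exact h4.trans h5
    have h6 : (discr M).natAbs ≤ ⌈Y⌉.toNat := by exact_mod_cast h3
    rw [Int.abs_eq_natAbs]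
    exact_mod_cast h6

theorem he : S_HE := by
  intro Ω _ inst Y
  haveI : CharZero Ω := algebraRat.charZero Ω
  exact aux Ω inst (Subsingleton.elim _ _) Y

end Pool.Agent.W711.ML
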